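import Pool.Agent.Helper819.Gr.N4

/-!
For all `n ≥ 2` and `d ≥ 3` the image of `ℙX_n^d // SL_n → Z_n^{d-1} // SL_n`, the morphism of
quotients induced by the gradient morphism, is a normal variety: it is closed, and the coordinate
ring of the image with its reduced structure is an integrally closed domain of finite type
over `ℂ`.
-/

namespace Pool.Agent.Results.MP_f4e0a3_ag.NormalImage

open Pool.Agent.Helper819.GradMap

theorem result (n d : ℕ) (hn : 2 ≤ n) (hd : 3 ≤ d) :
    IsClosed (gradImage n d hd) ∧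
    IsDomain (InvRing n (Z n (d - 1)) ⧸ PrimeSpectrum.vanishingIdeal (gradImage n d hd)) ∧
    IsIntegrallyClosed (InvRing n (Z n (d - 1)) ⧸ PrimeSpectrum.vanishingIdeal (gradImage n d hd)) ∧
    Algebra.FiniteType ℂ
      (InvRing n (Z n (d - 1)) ⧸ PrimeSpectrum.vanishingIdeal (gradImage n d hd)) := by
  obtain ⟨N, rfl⟩ : ∃ N, n = N + 1 := ⟨n - 1, by omega⟩
  obtain ⟨e, rfl⟩ : ∃ e, d = e + 1 := ⟨d - 1, by omega⟩
  exact (main hd).2

end Pool.Agent.Results.MP_f4e0a3_ag.NormalImage
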